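import Pool.Agent.U83.DSq.Main
import Pool.Agent.U83.DSq.RealLine

/-!
# A `Δ`-set of reals whose square is not a `Δ`-set

It is consistent with ZFC that there is a `Δ`-set `X` of reals such that `X × X` is not a `Δ`-set:
a notion of forcing is given in which every condition forces this.

Idea of the proof. Let `K` be a set of size `ℵ₂`. A condition is a finite set of atoms; the atoms
are digits of Cohen reals `x γ`, `γ ∈ K`; values of a generic function `F : K × K → ℕ`; and, for
each `ξ` in a set of size `2 ^ ℵ₂` which lists all names of functions `K → ℕ`, basic clopen sets
contained in an open set `U n`, and promises that `x γ` is not in `U n` for `n ≥ m`. A promise can
be made only when the condition already decides the value at `γ` of the function with the number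
`ξ`, and this value is smaller than `m`. By genericity the set `X` of the Cohen reals is a `Δ`-set:
the partition of `X` given by the function number `ξ` is expanded by the sets `U n`. The forcing
has the countable chain condition. The partition of `X × X` given by the function `F` has no
point-finite open expansion: otherwise, take a countable set `S` of indices which is closed in a
suitable sense and contains the indices which matter for the names of the open sets, and take
`α ≠ β` in `K` which are free: `α, β ∉ S`, and the pair `(α, β)` is neither in the closure of
`S ∪ {α}` nor in the closure of `S ∪ {β}`. Such a pair exists because `K` has size `ℵ₂`. If a
condition `r` forces that the pair of the points number `α` and `β` is not in the open set number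
`m`, then the value of `F` at `(α, β)` can be changed to `m` without changing what is decided about
the part over `S` and the two points, and an amalgamation gives an extension of `r` which forces
that the pair is in the open set number `m`.

Definitions used in the statement (files `Pool.Agent.Helper669.Forcing`,
`Pool.Agent.U83.DSq.Sentence`, `Pool.Agent.U83.DSq.Plain`):
* a sentence of the forcing language of `P` is the set of the conditions which force it; `fnot`,
  `fand`, `fall`, `fimp`, `fex` are the connectives and quantifiers with their forcing clauses,
  `fground` is a statement about ground model objects, `meets N` says that the generic filter meets
  the set `N`.
* `Digit`, `Stem`, `Distinct`: digits and initial segments of named points of the Cantor space, and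
  inequality of such points.
* `IsPartition`, `Expandable`, `In1`, `In2`: named partitions; existence of point-finite open
  expansions for all named partitions; membership in coded open sets of the space and of its square.
* `DeltaSquare P`: some subset of the Cantor space is a `Δ`-space and its square is not.
* `IsDeltaSpace T`: the definition of a `Δ`-space.
-/

set_option autoImplicit false

namespace Pool.Agent.Results.MP_d5ec8b_lc.SquareNotDelta

open Pool.Agent.U83.DSq

/-- There is a notion of forcing each condition of which forces that there is a `Δ`-set whose square
is not a `Δ`-set; and for the one-element notion of forcing the sentence which is forced says
literally that there is a `Δ`-set `X` of reals such that `X × X` is not a `Δ`-set. -/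
theorem result :
    (∃ (P : Type) (_ : Preorder P), Nonempty P ∧ ∀ p : P, p ∈ DeltaSquare P) ∧
    (() ∈ DeltaSquare Unit ↔
      ∃ X : Set ℝ, IsDeltaSpace X ∧ ¬ IsDeltaSpace (X ×ˢ X : Set (ℝ × ℝ))) :=
  ⟨exists_forcing, unit_DeltaSquare⟩

end Pool.Agent.Results.MP_d5ec8b_lc.SquareNotDelta
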